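import Pool.Agent.LPR.Stmts

/-!
# Row REL of squad LPR: open subsets of `S × [0, 1]` are stable (helper50)
-/

set_option autoImplicit false

open Set Topology
open scoped BigOperators

namespace Pool.Agent.LPR.H50

open Pool.Agent.LSG Pool.Agent.LPR

/-- every value of the embedding is a multiple of one value -/
theorem imap_one (hRe1 : Re1Stmt) {S : Type} [TopologicalSpace S] {O : Set (S × unitInterval)}
    {ρ : C(S × unitInterval, ℝ)} {χ : ℕ → ℕ → C(S × unitInterval, ℝ)} {a b : ℕ → ℕ → ℕ → ℝ}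
    {w : ℕ → ℕ → ℕ → C(ℝ, ℝ)} (hP : Parti O ρ χ) (hS : Slots a b w) (x : S × unitInterval) :
    ∃ (c : ℝ) (y : (S × unitInterval) × OnePoint ℕ), ∀ F, imap a b w χ F x = c * F y := by
  have h1 := (hRe1 S O ρ χ a b w hP hS).1
  by_cases h : ∃ α : ℕ × ℕ × ℕ, w α.1 α.2.1 α.2.2 (x.2 : ℝ) ≠ 0 ∧
      χ α.1 α.2.1 (x.1, pt (((x.2 : ℝ) - a α.1 α.2.1 α.2.2) /
        (b α.1 α.2.1 α.2.2 - a α.1 α.2.1 α.2.2))) ≠ 0
  · obtain ⟨α, hw, hx⟩ := h
    refine ⟨w α.1 α.2.1 α.2.2 (x.2 : ℝ) * χ α.1 α.2.1 (x.1, pt (((x.2 : ℝ) - a α.1 α.2.1 α.2.2) /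
        (b α.1 α.2.1 α.2.2 - a α.1 α.2.1 α.2.2))),
      ((x.1, pt (((x.2 : ℝ) - a α.1 α.2.1 α.2.2) / (b α.1 α.2.1 α.2.2 - a α.1 α.2.1 α.2.2))),
        ((α.2.2 : ℕ) : OnePoint ℕ)), ?_⟩
    intro F
    unfold imap
    rw [finsum_eq_single _ α ?_]
    · ring
    · intro β hβ
      by_cases hw' : w β.1 β.2.1 β.2.2 (x.2 : ℝ) = 0
      · rw [hw', zero_mul]
      · by_cases hx' : χ β.1 β.2.1 (x.1, pt (((x.2 : ℝ) - a β.1 β.2.1 β.2.2) /
            (b β.1 β.2.1 β.2.2 - a β.1 β.2.1 β.2.2))) = 0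
        · rw [hx', zero_mul, mul_zero]
        · exfalso
          obtain ⟨e1, e2, e3⟩ := h1 x.1 x.2 _ _ _ _ _ _ _ _ hw' hx' hw hx
          exact hβ (Prod.ext e1 (Prod.ext e2 e3))
  · refine ⟨0, ((x.1, 0), OnePoint.infty), ?_⟩
    intro F
    unfold imap
    rw [zero_mul]
    refine finsum_eq_zero_of_forall_eq_zero fun β => ?_
    by_cases hw' : w β.1 β.2.1 β.2.2 (x.2 : ℝ) = 0
    · rw [hw', zero_mul]
    · by_cases hx' : χ β.1 β.2.1 (x.1, pt (((x.2 : ℝ) - a β.1 β.2.1 β.2.2) /
            (b β.1 β.2.1 β.2.2 - a β.1 β.2.1 β.2.2))) = 0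
      · rw [hx', zero_mul, mul_zero]
      · exact absurd ⟨β, hw', hx'⟩ h

/-- every value of the projection is a finite combination of values -/
theorem pmap_fin {S : Type} [TopologicalSpace S] {O : Set (S × unitInterval)}
    {ρ : C(S × unitInterval, ℝ)} {χ : ℕ → ℕ → C(S × unitInterval, ℝ)} (a b : ℕ → ℕ → ℕ → ℝ)
    (hP : Parti O ρ χ) (x : S × unitInterval) (n : ℕ) :
    ∃ T : Finset (ℕ × ℕ), ∀ g : S × unitInterval → ℝ, pmap a b χ g n x =
      ∑ α ∈ T, χ α.1 α.2 x *
        (g (x.1, pt (a α.1 α.2 n + (x.2 : ℝ) * (b α.1 α.2 n - a α.1 α.2 n))) -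
          g (x.1, pt (sg α.1 α.2))) := by
  classical
  have h1 : ∃ T : Finset (ℕ × ℕ), ∀ m k, χ m k x ≠ 0 → (m, k) ∈ T := by
    by_cases hx : x ∈ O
    · obtain ⟨T, -, hT, -⟩ := hP.cover x hx
      exact ⟨T, hT⟩
    · refine ⟨∅, fun m k hk => absurd ?_ hx⟩
      refine (hP.zero x).1 ?_
      have h2 := (hP.supp m k x hk).2.1
      have h3 : (0 : ℝ) < (1 / 2 : ℝ) ^ (m + 1) := by positivity
      exact (h3.trans h2).ne'
  obtain ⟨T, hT⟩ := h1
  refine ⟨T, fun g => ?_⟩
  unfold pmap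
  refine finsum_eq_sum_of_support_subset _ ?_
  intro α hα
  rw [Function.mem_support] at hα
  refine Finset.mem_coe.2 (hT α.1 α.2 ?_)
  intro h0
  exact hα (by rw [h0, zero_mul])

theorem rel (hChi : ChiStmt) (hSlt : SltStmt) (hRe1 : Re1Stmt) (hRei : ReiStmt) (hRep : RepStmt)
    (hReq : ReqStmt) : RelStmt := by
  classical
  intro S _ _ O hO
  obtain ⟨ρ, χ, hP⟩ := hChi S O hO
  obtain ⟨a, b, w, hS⟩ := hSlt
  have hI := hRei S O ρ χ a b w hP hS
  have hQ := hReq S O ρ χ a b w hP hS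
  choose G hGm hG using hRep S O ρ χ a b w hP hS
  choose c y hcy using imap_one hRe1 hP hS
  choose T hT using pmap_fin a b hP
  let iL : ↥(Sg O) →ₗ[ℝ] ↥(Fo O) :=
    { toFun := fun F => ⟨imap a b w χ F.1, hI F.1 F.2⟩
      map_add' := by
        intro F F'
        apply Subtype.ext
        funext x
        show imap a b w χ (F.1 + F'.1) x = imap a b w χ F.1 x + imap a b w χ F'.1 x
        rw [hcy, hcy, hcy, Pi.add_apply, mul_add]
      map_smul' := by
        intro r F
        apply Subtype.ext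
        funext x
        show imap a b w χ (r • F.1) x = r • imap a b w χ F.1 x
        rw [hcy, hcy, Pi.smul_apply, smul_eq_mul, smul_eq_mul]
        ring }
  have hiC : Continuous iL := by
    refine Continuous.subtype_mk (continuous_pi fun x => ?_) _
    have h1 : (fun F : ↥(Sg O) => imap a b w χ F.1 x) = fun F : ↥(Sg O) => c x * F.1 (y x) := by
      funext F
      exact hcy x F.1
    rw [h1]
    exact continuous_const.mul ((continuous_apply (y x)).comp continuous_subtype_val)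
  have hGi : ∀ (g : S × unitInterval → ℝ) (hg : g ∈ Fo O) (x : S × unitInterval),
      G g hg (x, OnePoint.infty) = 0 := fun g hg x => (hGm g hg).2.2 x
  let pL : ↥(Fo O) →ₗ[ℝ] ↥(Sg O) :=
    { toFun := fun g => ⟨G g.1 g.2, hGm g.1 g.2⟩
      map_add' := by
        intro g g'
        apply Subtype.ext
        funext q
        obtain ⟨x, n⟩ := q
        show G (g.1 + g'.1) _ (x, n) = G g.1 g.2 (x, n) + G g'.1 g'.2 (x, n)
        induction n using OnePoint.rec with
        | infty => rw [hGi, hGi, hGi, add_zero]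
        | coe n =>
          rw [hG, hG, hG, hT, hT, hT, ← Finset.sum_add_distrib]
          refine Finset.sum_congr rfl fun α _ => ?_
          rw [Pi.add_apply, Pi.add_apply]
          ring
      map_smul' := by
        intro r g
        apply Subtype.ext
        funext q
        obtain ⟨x, n⟩ := q
        show G (r • g.1) _ (x, n) = r • G g.1 g.2 (x, n)
        induction n using OnePoint.rec with
        | infty => rw [hGi, hGi, smul_zero]
        | coe n =>
          rw [hG, hG, hT, hT, Finset.smul_sum]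
          refine Finset.sum_congr rfl fun α _ => ?_
          rw [Pi.smul_apply, Pi.smul_apply, smul_eq_mul, smul_eq_mul, smul_eq_mul]
          ring }
  have hpC : Continuous pL := by
    refine Continuous.subtype_mk (continuous_pi fun q => ?_) _
    obtain ⟨x, n⟩ := q
    induction n using OnePoint.rec with
    | infty =>
      have h1 : (fun g : ↥(Fo O) => G g.1 g.2 (x, OnePoint.infty)) = fun _ => (0 : ℝ) := by
        funext g
        exact hGi g.1 g.2 x
      rw [h1]
      exact continuous_const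
    | coe n =>
      have h1 : (fun g : ↥(Fo O) => G g.1 g.2 (x, (n : OnePoint ℕ))) = fun g : ↥(Fo O) =>
          ∑ α ∈ T x n, χ α.1 α.2 x *
            (g.1 (x.1, pt (a α.1 α.2 n + (x.2 : ℝ) * (b α.1 α.2 n - a α.1 α.2 n))) -
              g.1 (x.1, pt (sg α.1 α.2))) := by
        funext g
        rw [hG, hT]
      rw [h1]
      refine continuous_finsetSum _ fun α _ => ?_
      exact continuous_const.mul (((continuous_apply _).comp continuous_subtype_val).sub
        ((continuous_apply _).comp continuous_subtype_val))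
  refine ⟨⟨iL, hiC⟩, ⟨pL, hpC⟩, ?_⟩
  intro F
  apply Subtype.ext
  funext q
  obtain ⟨x, n⟩ := q
  show G (imap a b w χ F.1) _ (x, n) = F.1 (x, n)
  induction n using OnePoint.rec with
  | infty => rw [hGi, F.2.2.2 x]
  | coe n => rw [hG, hQ F.1 F.2 x n]

end Pool.Agent.LPR.H50
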